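import Pool.Agent.Lib.MP_98022b_lb.MachL
import Pool.Agent.Lib.MP_98022b_td.MemQ

/-!
# Groups acting on spaces with a discretization and labels: membership in the class
-/

set_option autoImplicit false

open Set Filter Topology

namespace Pool.Agent.TD

open Pool.Agent.GLN Pool.Agent.FA Pool.Agent.FJ Pool.Agent.CCM

/-- The machine with a map of the states and with labels. -/
theorem transferReducible_of_discL {Γ B V V' Lb P : Type} [Group Γ] [MetricSpace B]
    [MulAction Γ B] [MulAction Γ V] [MulAction Γ V'] [MulAction Γ Lb] {G : Subgroup Γ}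
    (hfg : Group.FG G) {dV d' : V → V → ℕ} {π : V → V'} {geo : B → B → ℝ → B}
    (hsm : ∀ (g : Γ) u v, d' (g • u) (g • v) = d' u v)
    (hmap : ∀ (g : Γ) u, π (g • u) = g • π u) {lab : Set V → Lb → Prop} (hlab : IsLab Γ lab)
    {k₀ l₀ : ℕ} (hch : ChainCondL Γ lab d' k₀ l₀) (𝓕 : Subgroup G → Prop)
    (hJ : ∀ T : Set V, T.Finite → Far d' k₀ T → ∀ t : Γ,
      Nrm (fixingSubgroup Γ T) t → ∀ H : Subgroup G,
      (∀ n ∈ H, (n : Γ) ∈ fixingSubgroup Γ T ⊔ Subgroup.zpowers t) → 𝓕 H)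
    (hL : ∀ T : Set V, T.Finite → Far d' k₀ T → ∀ l : Lb, lab T l → ∀ H : Subgroup G,
      (∀ h ∈ H, h • l = l) → 𝓕 H)
    (hV : ∀ v : V', ∀ H : Subgroup G, (∀ h ∈ H, h • v = v) → 𝓕 H) (Δ : DiscQ P G B V dV geo)
    (hchg : ∃ Λ : ℕ, ∀ (r : P) (x y : B) (n : ℕ) (s : ℕ → ℝ), (∀ i < n, s i ≤ s (i + 1)) →
      0 ≤ s 0 → s n ≤ dist x y →
      (∀ i < n, π (Δ.st r (endPt geo x y (s i))) ≠ π (Δ.st r (endPt geo x y (s (i + 1))))) →
      n ≤ Λ * (d' (Δ.st r (endPt geo x y (s 0))) (Δ.st r (endPt geo x y (s n))) + 1))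
    (o : B) (N₀ : ℕ)
    (hcone : ∀ S : Finset G, (1 : G) ∈ S → ∃ (F : ℕ → B → ℝ) (L R η₀ : ℝ),
      ConeData1 G S B geo o F L R η₀ ∧ GaugeNet F ∧ ConeOut1 geo o F S N₀) :
    TransferReducible G 𝓕 := by
  obtain ⟨n₁, n₂, Λ, h⟩ := exists_seqQ (G := G) (d' := d') (π := π)
    (fun g u v => hsm (g : Γ) u v) (fun g u v huv => by
      have h1 := hmap (g : Γ) u
      have h2 := hmap (g : Γ) v
      rw [huv, ← h2] at h1
      exact h1) Δ hchg o N₀ hcone
  exact transferReducible_of_seqL' hfg hsm hmap hlab hch 𝓕 hJ hL hV N₀ n₁ n₂ Λ 3 h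

variable {P : ∀ (G : Type) [Group G], Prop} (hP : IsFJClassT P) {Γ B V V' Lb Θ : Type} [Group Γ]
  [MetricSpace B] [CompleteSpace B] [MulAction Γ B] [MulAction Γ V] [MulAction Γ V']
  [MulAction Γ Lb] {geo : B → B → ℝ → B} (hb : Bicomb B geo)
  (isom : ∀ (g : Γ) (x y : B), dist (g • x) (g • y) = dist x y)
  (geo_smul : ∀ (g : Γ) (x y : B) t, 0 ≤ t → t ≤ 1 → g • geo x y t = geo (g • x) (g • y) t)
  {n : ℕ} (hcov : SmallCovers B n)

include hP hb isom geo_smul hcov in
/-- A group `Γ` acting by isometries on a complete space with a consistent conical bicombing and a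
discretization is in the class if the stabilizers of the images of the states are in the class, in
each increasing sequence of far finite sets of states of a given length two consecutive sets have
the same pointwise stabilizer or the same label, for a pointwise stabilizer `J` of a far finite set
and an element `t` which normalizes `J` the group generated by `J` and `t` is in the class, and the
stabilizers of the labels of the far finite sets are in the class. -/
theorem mem_of_discL {dV d' : V → V → ℕ} {π : V → V'}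
    (hsm : ∀ (g : Γ) u v, d' (g • u) (g • v) = d' u v) (hmap : ∀ (g : Γ) u, π (g • u) = g • π u)
    (Δ : DiscQ Θ Γ B V dV geo)
    (hchg : ∃ Λ : ℕ, ∀ (r : Θ) (x y : B) (n : ℕ) (s : ℕ → ℝ), (∀ i < n, s i ≤ s (i + 1)) →
      0 ≤ s 0 → s n ≤ dist x y →
      (∀ i < n, π (Δ.st r (endPt geo x y (s i))) ≠ π (Δ.st r (endPt geo x y (s (i + 1))))) →
      n ≤ Λ * (d' (Δ.st r (endPt geo x y (s 0))) (Δ.st r (endPt geo x y (s n))) + 1))
    (o : B) (k₀ l₀ : ℕ) (hv : ∀ v : V', P (MulAction.stabilizer Γ v)) {lab : Set V → Lb → Prop}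
    (hlab : IsLab Γ lab)
    (hchain : ∀ T : ℕ → Set V, (∀ i, (T i).Finite) → (∀ i, T i ⊆ T (i + 1)) →
      (∃ v ∈ T 0, ∃ w ∈ T 0, k₀ ≤ d' v w) →
      ∃ i < l₀, fixingSubgroup Γ (T i) = fixingSubgroup Γ (T (i + 1)) ∨
        ∃ l, lab (T i) l ∧ lab (T (i + 1)) l)
    (hcyc : ∀ T : Set V, T.Finite → (∃ v ∈ T, ∃ w ∈ T, k₀ ≤ d' v w) → ∀ t : Γ,
      (∀ j, j ∈ fixingSubgroup Γ T ↔ t * j * t⁻¹ ∈ fixingSubgroup Γ T) →
      P (fixingSubgroup Γ T ⊔ Subgroup.zpowers t : Subgroup Γ))
    (hL : ∀ T : Set V, T.Finite → (∃ v ∈ T, ∃ w ∈ T, k₀ ≤ d' v w) → ∀ l : Lb, lab T l →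
      P (MulAction.stabilizer Γ l)) : P Γ := by
  classical
  refine hP.toIsFJClass.locally fun S₀ => ?_
  obtain ⟨G, hG⟩ : ∃ G : Subgroup Γ, G = Subgroup.closure (S₀ : Set Γ) := ⟨_, rfl⟩
  refine ⟨G, fun x hx => hG ▸ Subgroup.subset_closure hx, ?_⟩
  have hfg : Group.FG G := by
    rw [hG]
    infer_instance
  have hTR := transferReducible_of_discL (G := G) hfg hsm hmap hlab (k₀ := k₀) (l₀ := l₀)
    (fun T hmono hfin hfar => hchain T hfin (fun i => hmono (Nat.le_succ i)) hfar)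
    (fun K => P K)
    (fun T hT hfar t ht K hK => by
      refine hP.of_injective
        ((G.subtype.comp K.subtype).codRestrict (fixingSubgroup Γ T ⊔ Subgroup.zpowers t)
          fun k => hK k.1 k.2)
        (fun a b hab => ?_) (hcyc T hT hfar t fun j => ⟨fun hj => (ht j hj).1, fun hj => ?_⟩)
      · have h1 := congrArg
          (fun x : (fixingSubgroup Γ T ⊔ Subgroup.zpowers t : Subgroup Γ) => (x : Γ)) hab
        exact Subtype.ext (Subtype.ext h1)
      · have h1 := (ht _ hj).2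
        convert h1 using 1
        group)
    (fun T hT hfar l hl K hK => hP.of_injective
      ((G.subtype.comp K.subtype).codRestrict (MulAction.stabilizer Γ l) fun k => hK k.1 k.2)
      (fun a b hab => by
        have h1 := congrArg (fun x : MulAction.stabilizer Γ l => (x : Γ)) hab
        exact Subtype.ext (Subtype.ext h1)) (hL T hT hfar l hl))
    (fun v K hK => hP.of_injective
      ((G.subtype.comp K.subtype).codRestrict (MulAction.stabilizer Γ v) fun k => hK k.1 k.2)
      (fun a b hab => by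
        have h1 := congrArg (fun x : MulAction.stabilizer Γ v => (x : Γ)) hab
        exact Subtype.ext (Subtype.ext h1)) (hv v))
    (Δ.sub G) hchg o (2 * n + 2) fun S hS => exists_cone hb isom geo_smul hcov G o S hS
  exact hP.transfer _ hTR fun _ h => h

end Pool.Agent.TD
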