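import Pool.Agent.Lib.MP_98022b_lb.Lab

/-!
# Commensurability classes as labels
-/

set_option autoImplicit false

open Set
open scoped Pointwise

namespace Pool.Agent.TD

open Subgroup

variable {Γ : Type} [Group Γ]

/-- The commensurability classes of the subgroups of `Γ`. -/
def CClass (Γ : Type) [Group Γ] : Type :=
  Quotient (⟨Commensurable, Commensurable.equivalence⟩ : Setoid (Subgroup Γ))

/-- The commensurability class of a subgroup. -/
def cclass (H : Subgroup Γ) : CClass Γ := Quotient.mk _ H

theorem cclass_eq {H K : Subgroup Γ} : cclass H = cclass K ↔ Commensurable H K := Quotient.eq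

/-- The action by conjugation. -/
instance : MulAction Γ (CClass Γ) where
  smul g := Quotient.map (fun H => ConjAct.toConjAct g • H) (fun _ _ h => h.conj _)
  one_smul := by
    rintro ⟨H⟩
    show cclass (ConjAct.toConjAct (1 : Γ) • H) = cclass H
    rw [map_one, one_smul]
  mul_smul g h := by
    rintro ⟨H⟩
    show cclass (ConjAct.toConjAct (g * h) • H) =
      cclass (ConjAct.toConjAct g • ConjAct.toConjAct h • H)
    rw [map_mul, mul_smul]

theorem smul_cclass (g : Γ) (H : Subgroup Γ) :
    g • cclass H = cclass (ConjAct.toConjAct g • H) := rfl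

theorem stabilizer_cclass (H : Subgroup Γ) :
    MulAction.stabilizer Γ (cclass H) = Commensurable.commensurator H := by
  ext g
  rw [MulAction.mem_stabilizer_iff, smul_cclass, cclass_eq, Commensurable.commensurator_mem_iff]

theorem mem_conj_smul {H : Subgroup Γ} {g x : Γ} :
    x ∈ ConjAct.toConjAct g • H ↔ g⁻¹ * x * g ∈ H := by
  rw [Subgroup.mem_pointwise_smul_iff_inv_smul_mem, ConjAct.smul_def]
  simp

theorem fixing_image {V : Type} [MulAction Γ V] (g : Γ) (T : Set V) :
    fixingSubgroup Γ ((fun v => g • v) '' T) = ConjAct.toConjAct g • fixingSubgroup Γ T := by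
  ext x
  rw [mem_conj_smul, mem_fixingSubgroup_iff, mem_fixingSubgroup_iff, Set.forall_mem_image]
  refine forall₂_congr fun v _ => ?_
  rw [mul_smul, mul_smul, inv_smul_eq_iff]

theorem conj_smul_eq_of_normal {N : Subgroup Γ} [N.Normal] (g : Γ) :
    ConjAct.toConjAct g • N = N := by
  ext x
  rw [mem_conj_smul]
  have h := ‹N.Normal›.mem_comm_iff (a := g⁻¹ * x) (b := g)
  rw [h, mul_inv_cancel_left]

/-- The class of the subgroup given by a set of states, if it is good, is a label; to be good is
inherited by commensurable groups which are larger. -/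
theorem isLab_comm' {V : Type} [MulAction Γ V] (J : Set V → Subgroup Γ)
    (hJ : ∀ (g : Γ) T, J ((fun v => g • v) '' T) = ConjAct.toConjAct g • J T)
    (hanti : ∀ T T', T ⊆ T' → J T' ≤ J T) (good : Subgroup Γ → Prop)
    (hgood : ∀ (g : Γ) H, good H → good (ConjAct.toConjAct g • H))
    (hup : ∀ H H' : Subgroup Γ, H ≤ H' → Commensurable H H' → good H → good H') :
    IsLab Γ (fun (T : Set V) (l : CClass Γ) => good (J T) ∧ l = cclass (J T)) := by
  refine ⟨?_, ?_, ?_⟩
  · rintro T l l' ⟨-, rfl⟩ ⟨-, rfl⟩
    rfl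
  · rintro g T l ⟨h, rfl⟩
    exact ⟨by rw [hJ]; exact hgood g _ h, by rw [hJ]; rfl⟩
  · rintro T T' T'' l h1 h2 ⟨h, rfl⟩ ⟨h', h3⟩
    rw [cclass_eq] at h3
    have h4 : Commensurable (J T) (J T') := by
      refine ⟨?_, ?_⟩
      · rw [Subgroup.relIndex_eq_one.2 (hanti _ _ h1)]
        exact one_ne_zero
      · intro h5
        exact h3.2 (Subgroup.relIndex_eq_zero_of_le_left (hanti _ _ h2) h5)
    exact ⟨hup _ _ (hanti _ _ h2) (h3.symm.trans h4) h', cclass_eq.2 h4⟩

/-- The class of the subgroup given by a set of states, if it is good, is a label. -/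
theorem isLab_comm {V : Type} [MulAction Γ V] (J : Set V → Subgroup Γ)
    (hJ : ∀ (g : Γ) T, J ((fun v => g • v) '' T) = ConjAct.toConjAct g • J T)
    (hanti : ∀ T T', T ⊆ T' → J T' ≤ J T) (good : Subgroup Γ → Prop)
    (hgood : ∀ (g : Γ) H, good H → good (ConjAct.toConjAct g • H))
    (hup : ∀ H H' : Subgroup Γ, H ≤ H' → good H → good H') :
    IsLab Γ (fun (T : Set V) (l : CClass Γ) => good (J T) ∧ l = cclass (J T)) :=
  isLab_comm' J hJ hanti good hgood fun H H' h _ => hup H H' h

end Pool.Agent.TD
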