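import Pool.Agent.Lib.MP_98022b_lb.RelL
import Pool.Agent.Lib.MP_98022b_lb.CommL

/-!
# Groups acting on finite dimensional CAT(0) complexes: the commensurability form
-/

set_option autoImplicit false

open Set Filter Topology

open scoped Pointwise

namespace Pool.Agent.TD

open Pool.Agent.GLN Pool.Agent.FJ Pool.Agent.FA

section

variable {P : ∀ (G : Type) [Group G], Prop} {Γ Q : Type} [Group Γ] [Group Q] (f : Γ →* Q)

/-- The intersections of the commensurator of `H` with the preimages of the cyclic subgroups of `Q`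
are in the class. -/
def GoodComm (P : ∀ (G : Type) [Group G], Prop) (f : Γ →* Q) (H : Subgroup Γ) : Prop :=
  ∀ q : Q, P (Subgroup.Commensurable.commensurator H ⊓ (Subgroup.zpowers q).comap f : Subgroup Γ)

theorem goodComm_congr {H K : Subgroup Γ} (h : Subgroup.Commensurable H K)
    (hH : GoodComm P f H) : GoodComm P f K := by
  have h1 : Subgroup.Commensurable.commensurator H = Subgroup.Commensurable.commensurator K := by
    rw [← stabilizer_cclass, ← stabilizer_cclass, cclass_eq.2 h]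
  intro q
  rw [← h1]
  exact hH q

theorem mem_commensurator_conj (H : Subgroup Γ) (g x : Γ) :
    x ∈ Subgroup.Commensurable.commensurator (ConjAct.toConjAct g • H) ↔
      g⁻¹ * x * g ∈ Subgroup.Commensurable.commensurator H := by
  rw [← stabilizer_cclass, ← stabilizer_cclass, MulAction.mem_stabilizer_iff,
    MulAction.mem_stabilizer_iff, ← smul_cclass, mul_smul, mul_smul, inv_smul_eq_iff]

theorem goodComm_conj (hP : IsFJClass P) (g : Γ) {H : Subgroup Γ} (hH : GoodComm P f H) :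
    GoodComm P f (ConjAct.toConjAct g • H) := by
  intro q
  refine hP.of_injective ((((MulAut.conj g⁻¹).toMonoidHom).comp (Subgroup.subtype _)).codRestrict
    (Subgroup.Commensurable.commensurator H ⊓
      (Subgroup.zpowers ((f g)⁻¹ * q * f g)).comap f : Subgroup Γ) fun x => ?_) ?_
      (hH ((f g)⁻¹ * q * f g))
  · have hx1 := (mem_commensurator_conj H g x.1).1 x.2.1
    have hx2 : f x.1 ∈ Subgroup.zpowers q := x.2.2
    obtain ⟨n, hn⟩ := Subgroup.mem_zpowers_iff.1 hx2
    refine ⟨?_, ?_⟩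
    · show g⁻¹ * x.1 * g⁻¹⁻¹ ∈ _
      rw [inv_inv]
      exact hx1
    · show f (g⁻¹ * x.1 * g⁻¹⁻¹) ∈ Subgroup.zpowers ((f g)⁻¹ * q * f g)
      rw [inv_inv, map_mul, map_mul, map_inv, ← hn]
      refine Subgroup.mem_zpowers_iff.2 ⟨n, ?_⟩
      have h1 : (f g)⁻¹ * q * f g = MulAut.conj (f g)⁻¹ q := by
        rw [MulAut.conj_apply, inv_inv]
      rw [h1, ← map_zpow, MulAut.conj_apply, inv_inv]
  · intro a b hab
    have h1 := congrArg (fun y : (Subgroup.Commensurable.commensurator H ⊓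
      (Subgroup.zpowers ((f g)⁻¹ * q * f g)).comap f : Subgroup Γ) => (y : Γ)) hab
    have h2 : (MulAut.conj g⁻¹) a.1 = (MulAut.conj g⁻¹) b.1 := h1
    exact Subtype.ext ((MulAut.conj g⁻¹).injective h2)

theorem fixing_inf_ker {V : Type} [MulAction Γ V] (g : Γ) (T : Set V) :
    fixingSubgroup Γ ((fun v => g • v) '' T) ⊓ f.ker =
      ConjAct.toConjAct g • (fixingSubgroup Γ T ⊓ f.ker) := by
  rw [fixing_image]
  ext x
  rw [Subgroup.mem_inf, mem_conj_smul, mem_conj_smul, Subgroup.mem_inf]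
  refine and_congr_right fun _ => ?_
  rw [MonoidHom.mem_ker, MonoidHom.mem_ker, map_mul, map_mul, map_inv]
  constructor
  · intro h
    rw [h, mul_one, inv_mul_cancel]
  · intro h
    have h1 : f x = f g * ((f g)⁻¹ * f x * f g) * (f g)⁻¹ := by group
    rw [h1, h, mul_one, mul_inv_cancel]

end

variable {Γ X V : Type} [Group Γ] [MetricSpace X] [MulAction Γ X] [MulAction Γ V]
  {K : EComplex X V}

/-- The relative theorem, commensurability form: in each chain two consecutive groups are equal, or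
they are commensurable and the intersections of the commensurator with the preimages of the cyclic
subgroups of `Q` are in the class. -/
theorem mem_of_complex_comm {P : ∀ (G : Type) [Group G], Prop} (hP : IsFJClassT P)
    [CompleteSpace X] [Nonempty X] (hX : IsCAT0 X) (hfin : K.lens.Finite) {d : ℕ}
    (hd : ∀ s ∈ K.faces, s.card ≤ d + 1) (hact : IsSimplicial Γ K) {Q : Type} [Group Q]
    (f : Γ →* Q) (hQ : P Q) (k l : ℕ)
    (hv : ∀ (v : V) (q : Q),
      P (MulAction.stabilizer Γ v ⊓ (Subgroup.zpowers q).comap f : Subgroup Γ))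
    (hchain : ∀ T : ℕ → Set (Set V), (∀ i, (T i).Finite) → (∀ i, ∀ C ∈ T i, K.IsFace C) →
      (∀ i, T i ⊆ T (i + 1)) →
      (∃ C ∈ T 0, ∃ C' ∈ T 0, ∀ u ∈ C, ∀ v ∈ C', (k : ℝ) ≤ dist (K.pos u) (K.pos v)) →
      ∃ i < l, fixingSubgroup Γ (T i) ⊓ f.ker = fixingSubgroup Γ (T (i + 1)) ⊓ f.ker ∨
        Subgroup.Commensurable (fixingSubgroup Γ (T i) ⊓ f.ker)
          (fixingSubgroup Γ (T (i + 1)) ⊓ f.ker) ∧
        ∀ q : Q, P (Subgroup.Commensurable.commensurator (fixingSubgroup Γ (T i) ⊓ f.ker) ⊓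
          (Subgroup.zpowers q).comap f : Subgroup Γ))
    (hnorm : ∀ T : Set (Set V), T.Finite → (∀ C ∈ T, K.IsFace C) →
      (∃ C ∈ T, ∃ C' ∈ T, ∀ u ∈ C, ∀ v ∈ C', (k : ℝ) ≤ dist (K.pos u) (K.pos v)) → ∀ t : Γ,
      (∀ j, j ∈ fixingSubgroup Γ T ⊓ f.ker ↔ t * j * t⁻¹ ∈ fixingSubgroup Γ T ⊓ f.ker) →
      P ((fixingSubgroup Γ T ⊓ f.ker) ⊔ Subgroup.zpowers t : Subgroup Γ)) : P Γ := by
  refine mem_of_complex_relL hP hX hfin hd hact f hQ k l hv
    (isLab_comm' (fun T : Set (Set V) => fixingSubgroup Γ T ⊓ f.ker) (fixing_inf_ker f)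
      (fun T T' h => inf_le_inf_right _ (fixingSubgroup_antitone Γ _ h)) (GoodComm P f)
      (fun g H => goodComm_conj f hP.toIsFJClass g) (fun H H' _ h => goodComm_congr f h))
    (fun T h1 h2 h3 h4 => ?_) hnorm (fun T h1 h2 h3 a ha q => ?_)
  · obtain ⟨i, hi, h⟩ := hchain T h1 h2 h3 h4
    exact ⟨i, hi, h.imp_right fun h => ⟨_, ⟨h.2, rfl⟩, goodComm_congr f h.1 h.2, cclass_eq.2 h.1⟩⟩
  · rw [ha.2, stabilizer_cclass]
    exact ha.1 q

end Pool.Agent.TD
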