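import Pool.Agent.Lib.MP_98022b_lb.Lab
import Pool.Agent.Lib.MP_98022b_td.ColQ

/-!
# The colours of a family of reduced sequences by labels
-/

set_option autoImplicit false

open Set
open scoped Pointwise

namespace Pool.Agent.TD

open Pool.Agent.GLN Pool.Agent.FA Pool.Agent.CCM

variable {Γ X V V' Lb : Type} [Group Γ] [MulAction Γ V] [MulAction Γ Lb] {G : Subgroup Γ}
  {d' : V → V → ℕ} {π : V → V'} {Λ W q : ℕ} {lab : Set V → Lb → Prop}

/-- The colour by the label of a far window. -/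
def colL (D : SeqQ G X V V' d' π Λ W q) (lab : Set V → Lb → Prop) (k₀ : ℕ) (a : ℤ) (g : G) (x : X)
    (l : Lb) : Prop :=
  D.Dom g x ∧ Far d' k₀ (wset (oP D g x) a) ∧ lab (wset (oP D g x) a) l

/-- The labels of far finite sets. -/
def goodLb (d' : V → V → ℕ) (lab : Set V → Lb → Prop) (k₀ : ℕ) (l : Lb) : Prop :=
  ∃ T : Set V, T.Finite ∧ Far d' k₀ T ∧ lab T l

theorem isCol_colL (hsm : ∀ (g : Γ) u v, d' (g • u) (g • v) = d' u v) (hlab : IsLab Γ lab)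
    (D : SeqQ G X V V' d' π Λ W q) {a : ℤ} {k₀ : ℕ} :
    IsCol (goodLb d' lab k₀) (colL D lab k₀ a) := by
  refine ⟨?_, ?_, ?_⟩
  · rintro g x l l' ⟨-, -, h⟩ ⟨-, -, h'⟩
    exact hlab.unique _ _ _ h h'
  · rintro h g x l ⟨hx, hf, hl⟩
    have hP : ∀ c, oP D (h * g) x c = (h : Γ) • oP D g x c := oP_smul D h g x
    refine ⟨D.dom_smul h g x hx, far_smul' hsm (h : Γ) hP hf, ?_⟩
    rw [wset_smul (h : Γ) hP]
    exact hlab.smul (h : Γ) _ _ hl
  · rintro g x l ⟨hx, hf, hl⟩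
    exact ⟨_, wset_finite _ _, hf, hl⟩

theorem common_colPL (hlab : IsLab Γ lab) (D : SeqQ G X V V' d' π Λ W q) {k₀ l₀ : ℕ}
    (hch : ChainCondL Γ lab d' k₀ l₀) {η : ℕ} {R a₀ ρ : ℤ} (hR : 0 ≤ R) (ha₀ : 0 ≤ a₀)
    (hρ : a₀ + (l₀ + 1) * (R + 2 * η) ≤ ρ) (hW : ρ + 2 * η + R ≤ W)
    {g : G} {x : X} (hfar : Far d' k₀ (wset (oP D g x) a₀))
    (hP : Per G (oP D g x) R (ρ + η)) :
    (∃ (i : Fin l₀) (l : Set (ℤ → Option V)), ∀ h y, D.Sees η g x h y →
      colP D k₀ R (a₀ + (i : ℕ) * (R + 2 * η) + η) (a₀ + (i : ℕ) * (R + 2 * η) + η + R) ρ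
        h y l) ∨
    ∃ (i : Fin l₀) (l : Lb), ∀ h y, D.Sees η g x h y →
      colL D lab k₀ (a₀ + (i : ℕ) * (R + 2 * η) + η) h y l := by
  have hη : (0 : ℤ) ≤ η := Int.natCast_nonneg η
  have hl₀ : (0 : ℤ) ≤ l₀ := Int.natCast_nonneg l₀
  have haρ : a₀ + (R + 2 * η) ≤ ρ := by nlinarith
  obtain ⟨k, hk, hkR, γ, hγ⟩ := hP
  obtain ⟨Q, hQ, hQP⟩ := exists_ext hk (by linarith) hγ
  -- the levels
  obtain ⟨T, hT⟩ : ∃ T : ℕ → Set V, ∀ i, T i = wset (oP D g x) (a₀ + (i : ℕ) * (R + 2 * η)) :=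
    ⟨_, fun _ => rfl⟩
  have hmono : Monotone T := by
    refine monotone_nat_of_le_succ fun i => ?_
    rw [hT, hT]
    refine wset_mono _ ?_
    push_cast
    nlinarith
  obtain ⟨i, hi, hJ⟩ := hch T hmono (fun i => by rw [hT]; exact wset_finite _ _) (by
    rw [hT]
    simpa using hfar)
  have hil : ((i : ℕ) : ℤ) + 1 ≤ l₀ := by exact_mod_cast hi
  have hlev : a₀ + ((i : ℕ) + 1) * (R + 2 * η) ≤ ρ := by
    have : ((i : ℕ) + 1) * (R + 2 * η) ≤ (l₀ + 1) * (R + 2 * (η : ℤ)) :=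
      mul_le_mul_of_nonneg_right (by linarith) (by linarith)
    linarith
  have hi0 : (0 : ℤ) ≤ (i : ℕ) * (R + 2 * η) := by positivity
  obtain ⟨α, hα⟩ : ∃ α : ℤ, α = a₀ + (i : ℕ) * (R + 2 * η) := ⟨_, rfl⟩
  have hα1 : T i = wset (oP D g x) α := by rw [hT, hα]
  have hα2 : T (i + 1) = wset (oP D g x) (α + R + 2 * η) := by
    rw [hT, hα]
    congr 1
    push_cast
    ring
  have hαρ : α + R + 2 * η ≤ ρ := by
    rw [hα]
    linarith [hlev]
  have hα0 : 0 ≤ α := by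
    rw [hα]
    positivity
  -- the windows of the other frames
  have key : ∀ h y, D.Sees η g x h y → D.Dom h y ∧ T i ⊆ wset (oP D h y) (α + η) ∧
      wset (oP D h y) (α + η + R) ⊆ T (i + 1) ∧ ∃ σ : ℤ, |σ| ≤ η ∧
        ∀ c : ℤ, |c| ≤ W → oP D h y (c + σ) = oP D g x c := by
    rintro h y ⟨hy, σ, hσ, hs⟩
    have hs' : ∀ c : ℤ, |c| ≤ W → oP D h y (c + σ) = oP D g x c := fun c hc => by
      show some _ = some _
      rw [hs c hc]
    refine ⟨hy, ?_, ?_, σ, hσ, hs'⟩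
    · rw [hα1]
      rintro v ⟨j, hj, hv⟩
      refine ⟨j + σ, (abs_add_le _ _).trans (by linarith), ?_⟩
      rw [hs' j (hj.trans (by linarith))]
      exact hv
    · rw [hα2]
      rintro v ⟨j, hj, hv⟩
      have h3 : |j - σ| ≤ α + R + 2 * η := (abs_sub _ _).trans (by linarith)
      refine ⟨j - σ, h3, ?_⟩
      rw [← hs' _ (h3.trans (by linarith)), sub_add_cancel]
      exact hv
  have hfar' : ∀ h y, T i ⊆ wset (oP D h y) (α + η) → Far d' k₀ (wset (oP D h y) (α + η)) := by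
    intro h y h1
    refine Far.mono ?_ h1
    rw [hα1, hα]
    exact hfar.mono (wset_mono _ (by linarith))
  have hRR : ∀ h y, wset (oP D h y) (α + η) ⊆ wset (oP D h y) (α + η + R) :=
    fun h y => wset_mono _ (by linarith)
  rcases hJ with hJ | ⟨l, hl1, hl2⟩
  · left
    refine ⟨⟨i, hi⟩, cls Q, fun h y hs => ?_⟩
    obtain ⟨hy, h1, h2, σ, hσ, hs'⟩ := key h y hs
    refine ⟨hy, ?_, ?_, k, γ, fun j => Q (j - σ), hk, hkR, fun j => ?_, fun j hj => ?_, ?_⟩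
    · show Far d' k₀ (wset (oP D h y) (a₀ + (i : ℕ) * (R + 2 * η) + η))
      rw [← hα]
      exact hfar' h y h1
    · -- the pointwise stabilizers
      show fixingSubgroup Γ (wset (oP D h y) (a₀ + (i : ℕ) * (R + 2 * η) + η)) =
        fixingSubgroup Γ (wset (oP D h y) (a₀ + (i : ℕ) * (R + 2 * η) + η + R))
      rw [← hα]
      refine le_antisymm ?_ (fixingSubgroup_antitone Γ V (hRR h y))
      calc fixingSubgroup Γ (wset (oP D h y) (α + η)) ≤ fixingSubgroup Γ (T i) :=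
            fixingSubgroup_antitone Γ V h1
        _ = fixingSubgroup Γ (T (i + 1)) := hJ
        _ ≤ fixingSubgroup Γ (wset (oP D h y) (α + η + R)) := fixingSubgroup_antitone Γ V h2
    · show γ • Q (j - σ) = Q (j + k - σ)
      rw [hQ]
      congr 1
      ring
    · show Q (j - σ) = oP D h y j
      have h3 : |j - σ| ≤ ρ + η := (abs_sub _ _).trans (by linarith)
      rw [hQP _ h3, ← hs' _ (h3.trans (by linarith)), sub_add_cancel]
    · have := cls_shift Q (-σ)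
      rw [← this]
      rfl
  · right
    refine ⟨⟨i, hi⟩, l, fun h y hs => ?_⟩
    obtain ⟨hy, h1, h2, -⟩ := key h y hs
    show D.Dom h y ∧ Far d' k₀ (wset (oP D h y) (a₀ + (i : ℕ) * (R + 2 * η) + η)) ∧
      lab (wset (oP D h y) (a₀ + (i : ℕ) * (R + 2 * η) + η)) l
    rw [← hα]
    exact ⟨hy, hfar' h y h1, hlab.conv _ _ _ l h1 ((hRR h y).trans h2) hl1 hl2⟩

end Pool.Agent.TD
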