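import Pool.Agent.Lib.MP_98022b_lb.MemL
import Pool.Agent.Lib.MP_98022b_tl.LineFinal

/-!
# Groups acting on finite dimensional CAT(0) complexes, with labels
-/

set_option autoImplicit false

open Set Filter Topology

open scoped Pointwise

namespace Pool.Agent.TD

open Pool.Agent.GLN Pool.Agent.FJ Pool.Agent.FA

variable {Γ X V : Type} [Group Γ] [MetricSpace X] [MulAction Γ X] [MulAction Γ V]
  {K : EComplex X V}

/-- The labels of sets of faces. -/
theorem isLab_face {Lb : Type} [MulAction Γ Lb] {lab : Set (Set V) → Lb → Prop}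
    (hlab : IsLab Γ lab) (hact : IsSimplicial Γ K) :
    IsLab Γ (fun (T : Set (faceAct hact)) (l : Lb) => lab (Subtype.val '' T) l) := by
  refine ⟨fun T l l' h h' => hlab.unique _ _ _ h h', fun g T l h => ?_,
    fun T T' T'' l h1 h2 h h' => hlab.conv _ _ _ l (Set.image_mono h1) (Set.image_mono h2) h h'⟩
  have h1 := hlab.smul g _ _ h
  have h2 : Subtype.val '' ((fun v : faceAct hact => g • v) '' T) =
      (fun C : Set V => g • C) '' (Subtype.val '' T) := by
    rw [Set.image_image, Set.image_image]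
    rfl
  show lab (Subtype.val '' ((fun v : faceAct hact => g • v) '' T)) (g • l)
  rw [h2]
  exact h1

/-- Far sets of faces. -/
theorem far_face (hact : IsSimplicial Γ K) {k : ℕ} {T : Set (faceAct hact)}
    (h : ∃ v ∈ T, ∃ w ∈ T, k ≤ dFace hact v w) :
    ∃ C ∈ (Subtype.val '' T : Set (Set V)), ∃ C' ∈ (Subtype.val '' T : Set (Set V)),
      ∀ u ∈ C, ∀ v ∈ C', (k : ℝ) ≤ dist (K.pos u) (K.pos v) := by
  obtain ⟨C, hC, C', hC', hk⟩ := h
  refine ⟨C.1, ⟨C, hC, rfl⟩, C'.1, ⟨C', hC', rfl⟩, fun u hu v hv' => ?_⟩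
  have h0 : (0 : ℝ) ≤ sInf {r | ∃ u ∈ C.1, ∃ v ∈ C'.1, r = dist (K.pos u) (K.pos v)} := by
    refine le_csInf ⟨_, u, hu, v, hv', rfl⟩ ?_
    rintro _ ⟨u, -, v, -, rfl⟩
    exact dist_nonneg
  have h1 : (k : ℝ) ≤ sInf {r | ∃ u ∈ C.1, ∃ v ∈ C'.1, r = dist (K.pos u) (K.pos v)} :=
    (Nat.cast_le.2 hk).trans (Nat.floor_le h0)
  refine h1.trans (csInf_le ⟨0, ?_⟩ ⟨u, hu, v, hv', rfl⟩)
  rintro _ ⟨u, -, v, -, rfl⟩
  exact dist_nonneg

theorem isFace_of_mem (hact : IsSimplicial Γ K) (T : Set (faceAct hact)) :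
    ∀ C ∈ (Subtype.val '' T : Set (Set V)), K.IsFace C := by
  rintro _ ⟨⟨_, x, rfl⟩, -, rfl⟩
  exact K.isFace_vs x

theorem fix_face (hact : IsSimplicial Γ K) (T : Set (faceAct hact)) :
    fixingSubgroup Γ T = fixingSubgroup Γ (Subtype.val '' T : Set (Set V)) := by
  ext g
  simp only [mem_fixingSubgroup_iff, Set.forall_mem_image]
  exact ⟨fun h C hC => congrArg Subtype.val (h C hC), fun h C hC => Subtype.ext (h hC)⟩

theorem stab_face_eq (hact : IsSimplicial Γ K) (v : faceAct hact) :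
    MulAction.stabilizer Γ v = MulAction.stabilizer Γ v.1 := by
  ext g
  rw [MulAction.mem_stabilizer_iff, MulAction.mem_stabilizer_iff]
  exact ⟨fun h => congrArg Subtype.val h, fun h => Subtype.ext h⟩

/-- A group acting by simplicial isometries on a complete CAT(0) Euclidean complex of finite
dimension with finitely many shapes is in a class of groups with the inheritance properties if the
stabilizers of the vertices are in the class, in each chain of far finite sets of simplices of a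
given length two consecutive sets have the same pointwise stabilizer or the same label, for such a
stabilizer `J` and an element `t` which normalizes `J` the group generated by `J` and `t` is in the
class, and the stabilizers of the labels are in the class. -/
theorem mem_of_complexL {P : ∀ (G : Type) [Group G], Prop} (hP : IsFJClassT P) [CompleteSpace X]
    [Nonempty X] (hX : IsCAT0 X) (hfin : K.lens.Finite) {d : ℕ}
    (hd : ∀ s ∈ K.faces, s.card ≤ d + 1) (hact : IsSimplicial Γ K) (k l : ℕ)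
    (hv : ∀ v : V, P (MulAction.stabilizer Γ v)) {Lb : Type} [MulAction Γ Lb]
    {lab : Set (Set V) → Lb → Prop} (hlab : IsLab Γ lab)
    (hchain : ∀ T : ℕ → Set (Set V), (∀ i, (T i).Finite) → (∀ i, ∀ C ∈ T i, K.IsFace C) →
      (∀ i, T i ⊆ T (i + 1)) →
      (∃ C ∈ T 0, ∃ C' ∈ T 0, ∀ u ∈ C, ∀ v ∈ C', (k : ℝ) ≤ dist (K.pos u) (K.pos v)) →
      ∃ i < l, fixingSubgroup Γ (T i) = fixingSubgroup Γ (T (i + 1)) ∨
        ∃ a, lab (T i) a ∧ lab (T (i + 1)) a)
    (hnorm : ∀ T : Set (Set V), T.Finite → (∀ C ∈ T, K.IsFace C) →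
      (∃ C ∈ T, ∃ C' ∈ T, ∀ u ∈ C, ∀ v ∈ C', (k : ℝ) ≤ dist (K.pos u) (K.pos v)) → ∀ t : Γ,
      (∀ j, j ∈ fixingSubgroup Γ T ↔ t * j * t⁻¹ ∈ fixingSubgroup Γ T) →
      P (fixingSubgroup Γ T ⊔ Subgroup.zpowers t : Subgroup Γ))
    (hL : ∀ T : Set (Set V), T.Finite → (∀ C ∈ T, K.IsFace C) →
      (∃ C ∈ T, ∃ C' ∈ T, ∀ u ∈ C, ∀ v ∈ C', (k : ℝ) ≤ dist (K.pos u) (K.pos v)) → ∀ a,
      lab T a → P (MulAction.stabilizer Γ a)) : P Γ := by
  classical
  obtain ⟨L, -, -, hL', -⟩ := EComplex.exists_lip hX hfin hd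
  obtain ⟨o⟩ := ‹Nonempty X›
  obtain ⟨Δ⟩ := ND.exists_discQ (Γ := Γ) hX K hfin hd hact.co_smul
  have hb := bicomb_geo hX
  refine mem_of_discL (π := id) (geo := geo) hP hb hact.isom
    (fun g x y t h0 h1 => geo_map hX (hact.isom g) x y h0 h1) (EComplex.smallCovers hX hfin hd)
    (fun g u v => hact.dF_smul g u.1 v.1) (fun _ _ => rfl) (toFaceG hact hL' Δ)
    (exists_chg hb (toFaceG hact hL' Δ)) o k l (fun v => ?_) (isLab_face hlab hact)
    (fun T hfinT hmono hfar => ?_) (fun T hfinT hfar t ht => ?_) (fun T hfinT hfar a ha => ?_)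
  · rw [stab_face_eq]
    exact stab_face hP.toIsFJClass hv (isFace_of_mem hact {v} v.1 ⟨v, rfl, rfl⟩)
  · obtain ⟨i, hi, h⟩ := hchain (fun i => Subtype.val '' T i) (fun i => (hfinT i).image _)
      (fun i => isFace_of_mem hact (T i)) (fun i => Set.image_mono (hmono i)) (far_face hact hfar)
    refine ⟨i, hi, ?_⟩
    rw [fix_face, fix_face]
    exact h
  · rw [fix_face] at ht ⊢
    exact hnorm _ (hfinT.image _) (isFace_of_mem hact T) (far_face hact hfar) t ht
  · exact hL _ (hfinT.image _) (isFace_of_mem hact T) (far_face hact hfar) a ha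

end Pool.Agent.TD
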