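import Pool.Agent.Lib.MP_98022b_cc.MachV

/-!
# Labels of sets of states
-/

set_option autoImplicit false

open Set
open scoped Pointwise

namespace Pool.Agent.TD

open Pool.Agent.GLN Pool.Agent.FA Pool.Agent.CCM

/-- A rule which gives labels to sets of states. -/
structure IsLab (Γ : Type) {V L : Type} [Group Γ] [MulAction Γ V] [MulAction Γ L]
    (lab : Set V → L → Prop) : Prop where
  unique : ∀ T l l', lab T l → lab T l' → l = l'
  smul : ∀ (g : Γ) T l, lab T l → lab ((fun v => g • v) '' T) (g • l)
  conv : ∀ T T' T'' l, T ⊆ T' → T' ⊆ T'' → lab T l → lab T'' l → lab T' l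

/-- In each increasing sequence of finite sets with a far first set two consecutive pointwise
stabilizers are equal or two consecutive sets have the same label. -/
def ChainCondL (Γ : Type) {V L : Type} [Group Γ] [MulAction Γ V] (lab : Set V → L → Prop)
    (d' : V → V → ℕ) (k₀ l₀ : ℕ) : Prop :=
  ∀ T : ℕ → Set V, Monotone T → (∀ i, (T i).Finite) → Far d' k₀ (T 0) →
    ∃ i < l₀, fixingSubgroup Γ (T i) = fixingSubgroup Γ (T (i + 1)) ∨
      ∃ l, lab (T i) l ∧ lab (T (i + 1)) l

end Pool.Agent.TD
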