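import Pool.Agent.Lib.MP_98022b_tl.LineDisc
import Pool.Agent.Lib.MP_98022b_lb.MemL

/-!
# Groups acting on the product with the line: labels
-/

set_option autoImplicit false

open Set Filter Topology

namespace Pool.Agent.TD

open Pool.Agent.GLN Pool.Agent.FA Pool.Agent.FJ Pool.Agent.CCM

variable {P : ∀ (G : Type) [Group G], Prop} {Γ B V Lb Θ : Type} [Group Γ]
  [MetricSpace B] [CompleteSpace B] [MulAction Γ B] [MulAction Γ V] [MulAction Γ Lb]
  {geo : B → B → ℝ → B}

/-- A group `Γ` with a homomorphism `χ` to the integers which acts by isometries on a complete space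
with a consistent conical bicombing and a discretization is in the class if the stabilizers of the
states are in the class, in each increasing sequence of far finite sets of states of a given length
two consecutive sets have the same label or the same intersection of the kernel of `χ` with the
pointwise stabilizer, for such an intersection `J` and an element `t` which normalizes `J` the group
generated by `J` and `t` is in the class, and the stabilizers of the labels of the far finite sets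
are in the class. -/
theorem mem_of_lineL (hP : IsFJClassT P) (hb : Bicomb B geo)
    (isom : ∀ (g : Γ) (x y : B), dist (g • x) (g • y) = dist x y)
    (geo_smul : ∀ (g : Γ) (x y : B) t, 0 ≤ t → t ≤ 1 → g • geo x y t = geo (g • x) (g • y) t)
    {n : ℕ} (hcov : SmallCovers B n) {dV : V → V → ℕ}
    (hsm : ∀ (g : Γ) u v, dV (g • u) (g • v) = dV u v)
    (Δ : DiscQ Θ Γ B V dV geo) (hp : PairsL Δ) (χ : Γ →* Multiplicative ℤ)
    (o : B) (k₀ l₀ : ℕ) (hv : ∀ v : V, P (MulAction.stabilizer Γ v)) {lab : Set V → Lb → Prop}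
    (hlab : IsLab Γ lab)
    (hchain : ∀ T : ℕ → Set V, (∀ i, (T i).Finite) → (∀ i, T i ⊆ T (i + 1)) →
      (∃ v ∈ T 0, ∃ w ∈ T 0, k₀ ≤ dV v w) →
      ∃ i < l₀, fixingSubgroup Γ (T i) ⊓ χ.ker = fixingSubgroup Γ (T (i + 1)) ⊓ χ.ker ∨
        ∃ l, lab (T i) l ∧ lab (T (i + 1)) l)
    (hcyc : ∀ T : Set V, T.Finite → (∃ v ∈ T, ∃ w ∈ T, k₀ ≤ dV v w) → ∀ t : Γ,
      (∀ j, j ∈ fixingSubgroup Γ T ⊓ χ.ker ↔ t * j * t⁻¹ ∈ fixingSubgroup Γ T ⊓ χ.ker) →
      P ((fixingSubgroup Γ T ⊓ χ.ker) ⊔ Subgroup.zpowers t : Subgroup Γ))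
    (hL : ∀ T : Set V, T.Finite → (∃ v ∈ T, ∃ w ∈ T, k₀ ≤ dV v w) → ∀ l : Lb, lab T l →
      P (MulAction.stabilizer Γ l)) : P Γ := by
  obtain ⟨c, hc⟩ : ∃ c : Γ → ℤ, ∀ g, c g = (χ g).toAdd := ⟨_, fun g => rfl⟩
  have hc1 : c 1 = 0 := by rw [hc, map_one]; rfl
  have hcm : ∀ g h, c (g * h) = c g + c h := fun g h => by rw [hc, hc, hc, map_mul]; rfl
  letI iR : MulAction Γ ℝ :=
    { smul := fun g a => a + c g
      one_smul := fun a => by
        show a + ((c 1 : ℤ) : ℝ) = a
        rw [hc1, Int.cast_zero, add_zero]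
      mul_smul := fun g h a => by
        show a + ((c (g * h) : ℤ) : ℝ) = a + c h + c g
        rw [hcm]
        push_cast
        ring }
  letI iZ : MulAction Γ ℤ :=
    { smul := fun g a => a + 2 * c g
      one_smul := fun a => by
        show a + 2 * c 1 = a
        rw [hc1, mul_zero, add_zero]
      mul_smul := fun g h a => by
        show a + 2 * c (g * h) = a + 2 * c h + 2 * c g
        rw [hcm]
        ring }
  have hr : ∀ (g : Γ) (a : ℝ), g • a = a + c g := fun g a => rfl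
  have hz : ∀ (g : Γ) (m : ℤ), g • m = m + 2 * c g := fun g m => rfl
  have hker : ∀ g : Γ, g ∈ χ.ker ↔ c g = 0 := by
    intro g
    rw [MonoidHom.mem_ker, hc]
    exact Iff.rfl
  have hfix : ∀ T : Set (V × ℤ), T.Nonempty →
      fixingSubgroup Γ T = fixingSubgroup Γ (Prod.fst '' T) ⊓ χ.ker := by
    rintro T ⟨p, hp⟩
    ext g
    rw [Subgroup.mem_inf, mem_fixingSubgroup_iff, mem_fixingSubgroup_iff, hker]
    constructor
    · intro h
      refine ⟨?_, ?_⟩
      · rintro _ ⟨q, hq, rfl⟩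
        exact congrArg Prod.fst (h q hq)
      · have h1 : g • p.2 = p.2 := congrArg Prod.snd (h p hp)
        rw [hz] at h1
        omega
    · rintro ⟨h1, h2⟩ q hq
      refine Prod.ext (h1 q.1 ⟨q, hq, rfl⟩) ?_
      show g • q.2 = q.2
      rw [hz, h2, mul_zero, add_zero]
  have hne : ∀ T : Set (V × ℤ), (∃ v ∈ T, ∃ w ∈ T, k₀ ≤ dV v.1 w.1) → T.Nonempty :=
    fun T ⟨v, hv, _⟩ => ⟨v, hv⟩
  have hfar' : ∀ T : Set (V × ℤ), (∃ v ∈ T, ∃ w ∈ T, k₀ ≤ dV v.1 w.1) →
      ∃ v ∈ Prod.fst '' T, ∃ w ∈ Prod.fst '' T, k₀ ≤ dV v w :=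
    fun T ⟨v, hv, w, hw, h⟩ => ⟨v.1, ⟨v, hv, rfl⟩, w.1, ⟨w, hw, rfl⟩, h⟩
  refine mem_of_discL (V := V × ℤ) (V' := V) (B := B × ℝ) (geo := geoL geo)
    (d' := fun p q => dV p.1 q.1) (π := Prod.fst) hP (bicomb_line hb) (fun g p q => ?_)
    (fun g p q t h0 h1 => ?_) (smallCovers_line hcov) (fun g u v => hsm g u.1 v.1)
    (fun g u => rfl) (discL c hr hz hb Δ hp) (chg_line c hr hz hb Δ hp) (o, 0) k₀ l₀ hv
    (lab := fun T l => lab (Prod.fst '' T) l) ⟨fun T l l' => hlab.unique _ l l', fun g T l h => ?_,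
      fun T T' T'' l h1 h2 => hlab.conv _ _ _ l (Set.image_mono h1) (Set.image_mono h2)⟩
    (fun T hfin hmono hfar => ?_) (fun T hfin hfar t ht => ?_) (fun T hfin hfar l hl => ?_)
  · rw [Prod.dist_eq, Prod.dist_eq]
    show max (dist (g • p.1) (g • q.1)) (dist (g • p.2) (g • q.2)) = _
    rw [isom, hr, hr, dist_add_right]
  · refine Prod.ext (geo_smul g p.1 q.1 t h0 h1) ?_
    show g • ((1 - t) * p.2 + t * q.2) = (1 - t) * (g • p.2) + t * (g • q.2)
    rw [hr, hr, hr]
    ring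
  · have h1 := hlab.smul g _ l h
    have h2 : (fun v => g • v) '' (Prod.fst '' T) = Prod.fst '' ((fun v => g • v) '' T) := by
      rw [Set.image_image, Set.image_image]
      rfl
    rw [h2] at h1
    exact h1
  · obtain ⟨i, hi, h⟩ := hchain (fun i => Prod.fst '' T i) (fun i => (hfin i).image _)
      (fun i => Set.image_mono (hmono i)) (hfar' _ hfar)
    have hne0 : ∀ i, (T i).Nonempty := by
      intro i
      induction i with
      | zero => exact hne _ hfar
      | succ i ih => exact ih.mono (hmono i)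
    refine ⟨i, hi, ?_⟩
    rw [hfix _ (hne0 i), hfix _ (hne0 (i + 1))]
    exact h
  · rw [hfix _ (hne T hfar)] at ht ⊢
    exact hcyc (Prod.fst '' T) (hfin.image _) (hfar' _ hfar) t ht
  · exact hL (Prod.fst '' T) (hfin.image _) (hfar' _ hfar) l hl

end Pool.Agent.TD
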