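import Pool.Agent.Lib.MP_98022b_lb.ColL
import Pool.Agent.Lib.MP_98022b_td.MachQ

/-!
# Transfer reducible groups from families of reduced sequences, with labels
-/

set_option autoImplicit false

open Set Filter Topology
open scoped Pointwise

namespace Pool.Agent.TD

open Pool.Agent.GLN Pool.Agent.FA Pool.Agent.CCM

variable {Γ V V' Lb : Type} [Group Γ] [MulAction Γ V] [MulAction Γ V'] [MulAction Γ Lb]
  {G : Subgroup Γ} {dV d' : V → V → ℕ} {π : V → V'} {lab : Set V → Lb → Prop}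

/-- The colours of a family of sequences. -/
theorem exists_long_coloursL (hsm : ∀ (g : Γ) u v, d' (g • u) (g • v) = d' u v)
    (hmap : ∀ (g : Γ) u, π (g • u) = g • π u) (hlab : IsLab Γ lab) {k₀ l₀ : ℕ}
    (hch : ChainCondL Γ lab d' k₀ l₀) (η Λ i₀ : ℕ) :
    ∃ a b : ℕ, ∀ (X : Type) (W q : ℕ) (D : SeqQ G X V V' d' π Λ W q),
      kapI i₀ (4 * η + 4) ((q + 1) ^ a) + b ≤ W →
      ∃ (cV : Fin (Λ * k₀ + 1) → G → X → V' → Prop)
        (cF : Fin l₀ → G → X → Set (ℤ → Option V) → Prop)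
        (cL : Fin l₀ → G → X → Lb → Prop)
        (cK : Fin 4 → G → X → V → Prop), (∀ j, IsCol (fun _ => True) (cV j)) ∧
        (∀ j, IsCol (goodL G d' k₀) (cF j)) ∧ (∀ j, IsCol (goodLb d' lab k₀) (cL j)) ∧
        (∀ κ, IsCol (fun _ => True) (cK κ)) ∧
        ∀ g x, D.Dom g x → (∃ j l, ∀ h y, D.Sees η g x h y → cV j h y l) ∨
          (∃ j l, ∀ h y, D.Sees η g x h y → cF j h y l) ∨
          (∃ j l, ∀ h y, D.Sees η g x h y → cL j h y l) ∨
          ∃ κ l, ∀ h y, D.Sees η g x h y → cK κ h y l := by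
  classical
  obtain ⟨R, hR⟩ : ∃ R : ℕ, R = 4 * η + 4 := ⟨_, rfl⟩
  obtain ⟨L, hL⟩ : ∃ L : ℕ, L = 2 * η + 1 := ⟨_, rfl⟩
  obtain ⟨K, hK⟩ : ∃ K : ℕ, K = (Λ * k₀ + 2) * L := ⟨_, rfl⟩
  obtain ⟨a₀, ha₀⟩ : ∃ a₀ : ℕ, a₀ = R + K := ⟨_, rfl⟩
  obtain ⟨ρ, hρ⟩ : ∃ ρ : ℕ, ρ = a₀ + (l₀ + 1) * (R + 2 * η) + 3 * R := ⟨_, rfl⟩
  obtain ⟨r, hr⟩ : ∃ r, r = 6 * η + 6 + R + ρ + 2 * η := ⟨_, rfl⟩
  refine ⟨2 * r + 1, r + 10 * η + 10 + ρ + 2 * η + R + a₀, fun X W q D hW => ?_⟩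
  obtain ⟨A₀, hA₀, hcard, hfin⟩ := D.fin
  obtain ⟨Q, hQ⟩ : ∃ Q, Q = (q + 1) ^ (2 * r + 1) := ⟨_, rfl⟩
  rw [← hQ, ← hR] at hW
  have hA1 : (some '' A₀ : Set (Option V)).Finite := hA₀.image _
  have hA1c : (some '' A₀ : Set (Option V)).ncard ≤ q + 1 := by
    have := Set.ncard_image_le (f := some) hA₀
    omega
  have hmem : ∀ g x, D.Dom g x → ∀ c : ℤ, |c| ≤ W →
      g⁻¹ • oP D g x c ∈ (some '' A₀ : Set (Option V)) := by
    intro g x hx c hc
    show g⁻¹ • some (D.P g x c) ∈ _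
    rw [Option.smul_some]
    exact ⟨_, hfin g x hx c hc, rfl⟩
  obtain ⟨e, he, he1, he2⟩ := exists_enc hA1 r Q (by
    rw [hQ]
    exact Nat.pow_le_pow_left hA1c _)
  obtain ⟨F, hrule, hF⟩ := exists_marksI i₀ R (by omega) Q
  have hRz : (R : ℤ) = 4 * η + 4 := by exact_mod_cast hR
  have hLz : (L : ℤ) = 2 * η + 1 := by exact_mod_cast hL
  have hη0 : (0 : ℤ) ≤ η := Int.natCast_nonneg η
  have hKz : (K : ℤ) = ((Λ : ℤ) * k₀ + 2) * L := by exact_mod_cast hK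
  have ha₀z : (a₀ : ℤ) = R + K := by exact_mod_cast ha₀
  have hρz : (ρ : ℤ) = a₀ + (l₀ + 1) * (R + 2 * η) + 3 * R := by exact_mod_cast hρ
  have hWb : r + 10 * η + 10 + ρ + 2 * η + R + a₀ ≤ W := by omega
  have hWbz : (r : ℤ) + 10 * η + 10 + ρ + 2 * η + R + a₀ ≤ W := by exact_mod_cast hWb
  have hK0 : (0 : ℤ) ≤ K := Int.natCast_nonneg K
  have hr0 : (0 : ℤ) ≤ r := Int.natCast_nonneg r
  have hρ0 : (0 : ℤ) ≤ ρ := Int.natCast_nonneg ρ
  refine ⟨fun j => colV D ((((j : ℕ) : ℤ) + 1) * L + η) ((((j : ℕ) : ℤ) + 1) * L + η),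
    fun i => colP D k₀ R (a₀ + ((i : ℕ) : ℤ) * (R + 2 * η) + η)
      (a₀ + ((i : ℕ) : ℤ) * (R + 2 * η) + η + R) ρ,
    fun i => colL D lab k₀ (a₀ + ((i : ℕ) : ℤ) * (R + 2 * η) + η),
    fun κ => colK D R (ρ + 2 * η) e F (((κ : ℕ) : ℤ) * (2 * η + 2)) R, ?_, ?_, ?_, ?_, ?_⟩
  · exact fun j => isCol_colV hmap D le_rfl
  · intro i
    have h0 : (0 : ℤ) ≤ ((i : ℕ) : ℤ) * (R + 2 * η) := by positivity
    have h1 : ((i : ℕ) : ℤ) * (R + 2 * η) ≤ (l₀ + 1) * (R + 2 * η) := by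
      refine mul_le_mul_of_nonneg_right ?_ (by positivity)
      have := i.2
      have h2 : ((i : ℕ) : ℤ) ≤ l₀ := by exact_mod_cast this.le
      linarith
    refine isCol_colP hsm D ?_ le_rfl ?_
    · linarith
    · linarith
  · exact fun i => isCol_colL hsm hlab D
  · intro κ
    have hκ : ((κ : ℕ) : ℤ) * (2 * η + 2) ≤ 6 * η + 6 := by
      have h3 : ((κ : ℕ) : ℤ) ≤ 3 := by
        have := κ.2
        omega
      nlinarith
    have hκ0 : 0 ≤ ((κ : ℕ) : ℤ) * (2 * η + 2) := by positivity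
    refine isCol_colK D (Z := kapI i₀ R Q) he he1 he2 hmem hrule (fun c hc => (hF c hc).1) le_rfl
      hκ0 ?_ ?_
    · rw [hr]
      push_cast
      omega
    · omega
  · intro g x hx
    by_cases hV : ∀ j < Λ * k₀ + 1, ¬ ∀ i i' : ℤ, ((j : ℤ) + 1) * L ≤ i → i < (j + 2) * L →
        (j + 1) * L ≤ i' → i' < (j + 2) * L → π (D.P g x i) = π (D.P g x i')
    · right
      have hfar : Far d' k₀ (wset (oP D g x) a₀) :=
        const_or_far D hx (L := L) (by omega) (by omega) (by omega) hV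
      have h7 : (ρ : ℤ) + 2 * η + R ≤ W := by linarith
      by_cases hN : Per G (oP D g x) R (ρ + η)
      · rcases common_colPL hlab D hch (R := R) (a₀ := a₀) (ρ := ρ) (by positivity)
          (by positivity) (by linarith) h7 hfar hN with ⟨i, l, hl⟩ | ⟨i, l, hl⟩
        · left
          exact ⟨i, l, hl⟩
        · right
          left
          exact ⟨i, l, hl⟩
      · right
        right
        obtain ⟨κ, l, hl⟩ := common_colK D (Z := kapI i₀ R Q) (R' := R) he hrule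
          (fun c hc => by rw [← hR]; exact (hF c hc).2) hR h7 (by omega) hN
        exact ⟨κ, l, hl⟩
    · left
      push Not at hV
      obtain ⟨j, hj, hc⟩ := hV
      have h1 : ((j : ℕ) : ℤ) + 1 ≤ Λ * k₀ + 1 := by exact_mod_cast hj
      have hLpos : (0 : ℤ) < L := by linarith
      have h2 : (((j : ℕ) : ℤ) + 1) * L ≤ (Λ * k₀ + 1) * L :=
        mul_le_mul_of_nonneg_right h1 hLpos.le
      have h3 : (0 : ℤ) ≤ (((j : ℕ) : ℤ) + 1) * L := by positivity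
      have h4 : ((Λ : ℤ) * k₀ + 2) * L = (Λ * k₀ + 1) * L + L := by ring
      have h5 : (((j : ℕ) : ℤ) + 2) * L = (j + 1) * L + L := by ring
      have h6 : |(((j : ℕ) : ℤ) + 1) * L + η| + η ≤ W := by
        rw [abs_of_nonneg (by linarith)]
        linarith
      refine ⟨⟨j, hj⟩, π (D.P g x ((((j : ℕ) : ℤ) + 1) * L)), fun h y hs =>
        common_colV D h6 h6 (fun i hi hi' => ?_) hs⟩
      exact hc _ _ (by linarith) (by linarith) le_rfl (by linarith)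

/-- The machine. `tow 3 x = 2 ^ 2 ^ 2 ^ x`; `N₀, n₁, n₂, Λ, j` do not depend on `S`. -/
theorem transferReducible_of_seqL' (hfg : Group.FG G)
    (hsm : ∀ (g : Γ) u v, d' (g • u) (g • v) = d' u v) (hmap : ∀ (g : Γ) u, π (g • u) = g • π u)
    (hlab : IsLab Γ lab) {k₀ l₀ : ℕ} (hch : ChainCondL Γ lab d' k₀ l₀) (𝓕 : Subgroup G → Prop)
    (hJ : ∀ T : Set V, T.Finite → Far d' k₀ T → ∀ t : Γ,
      Nrm (fixingSubgroup Γ T) t → ∀ H : Subgroup G,
      (∀ n ∈ H, (n : Γ) ∈ fixingSubgroup Γ T ⊔ Subgroup.zpowers t) → 𝓕 H)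
    (hL : ∀ T : Set V, T.Finite → Far d' k₀ T → ∀ l : Lb, lab T l → ∀ H : Subgroup G,
      (∀ h ∈ H, h • l = l) → 𝓕 H)
    (hV : ∀ v : V', ∀ H : Subgroup G, (∀ h ∈ H, h • v = v) → 𝓕 H) (N₀ n₁ n₂ Λ j : ℕ)
    (hgeo : ∀ S : Finset G, (1 : G) ∈ S → ∃ η A₀ H₀ : ℕ, ∀ H ≥ H₀, ∃ q : ℕ,
      q ≤ tow j (H ^ A₀) ∧ ∃ (X : Type) (_ : TopologicalSpace X), CompactSpace X ∧
      TopologicalSpace.MetrizableSpace X ∧ ContractibleSpace X ∧
      StronglyLocallyContractibleSpace X ∧ CovDimLE X N₀ ∧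
      ∃ (θ : HomotopyAction G S X) (cS : Fin n₁ → G → X → V → Prop)
        (D : Fin n₂ → SeqQ G X V V' d' π Λ H q), (∀ j, IsCol (fun _ => True) (cS j)) ∧
        ∀ g x, (∃ j l, ∀ q ∈ θ.nbhd S.card (g, x), ∀ᶠ y in 𝓝 q.2, cS j q.1 y l) ∨
          ∃ j, (D j).Dom g x ∧
            ∀ q ∈ θ.nbhd S.card (g, x), ∀ᶠ y in 𝓝 q.2, (D j).Sees η g x q.1 y) :
    TransferReducible G 𝓕 := by
  classical
  refine ⟨hfg, max N₀ (n₁ + n₂ * ((Λ * k₀ + 1) + (l₀ + (l₀ + 4)))), fun S hS => ?_⟩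
  obtain ⟨η, A₀, H₀, hgeo⟩ := hgeo S hS
  obtain ⟨a, b, hcol⟩ := exists_long_coloursL (G := G) hsm hmap hlab hch η Λ (j + 3)
  obtain ⟨H, hH, hparam⟩ := exists_paramI j A₀ (4 * η + 4) a H₀ b
  obtain ⟨q, hq, X, _, h1, h2, h3, h4, h5, θ, cS, D, hcS, hwide⟩ := hgeo H hH
  have hkap : kapI (j + 3) (4 * η + 4) ((q + 1) ^ a) + b ≤ H := by
    refine le_trans ?_ hparam
    have hm : (q + 1) ^ a ≤ (tow (j + 2) (H ^ A₀) + 1) ^ a := by
      refine Nat.pow_le_pow_left ?_ _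
      have e1 : tow j (H ^ A₀) ≤ tow (j + 1) (H ^ A₀) := Nat.lt_two_pow_self.le
      have e2 : tow (j + 1) (H ^ A₀) ≤ tow (j + 2) (H ^ A₀) := Nat.lt_two_pow_self.le
      omega
    have := kapI_mono (j := j + 3) (R := 4 * η + 4) hm
    omega
  choose cV cF cL cK hcV hcF hcL hcK hlong using fun j => hcol X H q (D j) hkap
  refine ⟨X, inferInstance, h1, h2, h3, h4, ?_, θ, ?_⟩
  · -- the dimension bound is monotone
    intro ι O hO hcov
    obtain ⟨κ, W, hW1, hW2, hW3, hW4⟩ := h5 ι O hO hcov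
    refine ⟨κ, W, hW1, hW2, hW3, fun x => (hW4 x).trans ?_⟩
    gcongr
    exact le_max_left _ _
  · -- the colours
    let I := Fin n₁ ⊕ (Fin n₂ × (Fin (Λ * k₀ + 1) ⊕ (Fin l₀ ⊕ (Fin l₀ ⊕ Fin 4))))
    let L : I → Type := fun i => match i with
      | Sum.inl _ => V
      | Sum.inr (_, Sum.inl _) => V'
      | Sum.inr (_, Sum.inr (Sum.inl _)) => Set (ℤ → Option V)
      | Sum.inr (_, Sum.inr (Sum.inr (Sum.inl _))) => Lb
      | Sum.inr (_, Sum.inr (Sum.inr (Sum.inr _))) => V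
    let mL : ∀ i, MulAction G (L i) := fun i => match i with
      | Sum.inl _ => inferInstanceAs (MulAction G V)
      | Sum.inr (_, Sum.inl _) => inferInstanceAs (MulAction G V')
      | Sum.inr (_, Sum.inr (Sum.inl _)) => inferInstanceAs (MulAction G (Set (ℤ → Option V)))
      | Sum.inr (_, Sum.inr (Sum.inr (Sum.inl _))) => inferInstanceAs (MulAction G Lb)
      | Sum.inr (_, Sum.inr (Sum.inr (Sum.inr _))) => inferInstanceAs (MulAction G V)
    let good : ∀ i, L i → Prop := fun i => match i with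
      | Sum.inl _ => fun _ => True
      | Sum.inr (_, Sum.inl _) => fun _ => True
      | Sum.inr (_, Sum.inr (Sum.inl _)) => goodL G d' k₀
      | Sum.inr (_, Sum.inr (Sum.inr (Sum.inl _))) => goodLb d' lab k₀
      | Sum.inr (_, Sum.inr (Sum.inr (Sum.inr _))) => fun _ => True
    let c : ∀ i, G → X → L i → Prop := fun i => match i with
      | Sum.inl j => cS j
      | Sum.inr (j, Sum.inl k) => cV j k
      | Sum.inr (j, Sum.inr (Sum.inl k)) => cF j k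
      | Sum.inr (j, Sum.inr (Sum.inr (Sum.inl k))) => cL j k
      | Sum.inr (j, Sum.inr (Sum.inr (Sum.inr k))) => cK j k
    have hVV : ∀ v : V, ∀ H : Subgroup G, (∀ h ∈ H, h • v = v) → 𝓕 H := by
      intro v H hH
      refine hV (π v) H fun h hh => ?_
      have h6 : π (h • v) = h • π v := hmap (h : Γ) v
      rw [← h6, hH h hh]
    refine ⟨_, isLongCover_of_cols θ (ι := I) L good c ?_
      (N := max N₀ (n₁ + n₂ * ((Λ * k₀ + 1) + (l₀ + (l₀ + 4))))) ?_ (𝓕 := 𝓕) ?_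
      (fun p => ⟨p, mem_nbhd θ hS _ p⟩) ?_⟩
    · rintro (j | ⟨j, k | k | k | k⟩)
      · exact hcS j
      · exact hcV j k
      · exact hcF j k
      · exact hcL j k
      · exact hcK j k
    · have : Nat.card I = n₁ + n₂ * ((Λ * k₀ + 1) + (l₀ + (l₀ + 4))) := by
        simp [I]
      rw [this]
      have := le_max_right N₀ (n₁ + n₂ * ((Λ * k₀ + 1) + (l₀ + (l₀ + 4))))
      omega
    · rintro (j | ⟨j, k | k | k | k⟩) l hl H hH
      · exact hVV l H hH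
      · exact hV l H hH
      · obtain ⟨T, hT, hfar, t, ht, hn⟩ : goodL G d' k₀ l := hl
        exact hJ T hT hfar t ht H fun n hnH => hn n (hH n hnH)
      · obtain ⟨T, hT, hfar, hlT⟩ : goodLb d' lab k₀ l := hl
        exact hL T hT hfar l hlT H hH
      · exact hVV l H hH
    · intro g x
      rcases hwide g x with ⟨j, l, h⟩ | ⟨j, hx, h⟩
      · exact ⟨Sum.inl j, l, h⟩
      · rcases hlong j g x hx with ⟨k, l, h'⟩ | ⟨k, l, h'⟩ | ⟨k, l, h'⟩ | ⟨k, l, h'⟩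
        · exact ⟨Sum.inr (j, Sum.inl k), l, fun q hq => (h q hq).mono fun y hy => h' _ _ hy⟩
        · exact ⟨Sum.inr (j, Sum.inr (Sum.inl k)), l,
            fun q hq => (h q hq).mono fun y hy => h' _ _ hy⟩
        · exact ⟨Sum.inr (j, Sum.inr (Sum.inr (Sum.inl k))), l,
            fun q hq => (h q hq).mono fun y hy => h' _ _ hy⟩
        · exact ⟨Sum.inr (j, Sum.inr (Sum.inr (Sum.inr k))), l,
            fun q hq => (h q hq).mono fun y hy => h' _ _ hy⟩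

end Pool.Agent.TD
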