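import Pool.Agent.Lib.MP_98022b_lb.FinalL
import Pool.Agent.Lib.MP_98022b_lb.LineL

/-!
# Groups acting on finite dimensional CAT(0) complexes, relative to a homomorphism, with labels
-/

set_option autoImplicit false

open Set Filter Topology

open scoped Pointwise

namespace Pool.Agent.TD

open Pool.Agent.GLN Pool.Agent.FJ Pool.Agent.FA

variable {Γ X V : Type} [Group Γ] [MetricSpace X] [MulAction Γ X] [MulAction Γ V]
  {K : EComplex X V}

/-- The labels and a subgroup. -/
theorem isLab_sub {Lb : Type} [MulAction Γ Lb] {lab : Set (Set V) → Lb → Prop}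
    (hlab : IsLab Γ lab) (K' : Subgroup Γ) : IsLab K' lab :=
  ⟨hlab.unique, fun g T l h => hlab.smul (g : Γ) T l h, hlab.conv⟩

/-- THE RELATIVE THEOREM WITH LABELS. Let `Γ` act by simplicial isometries on a complete CAT(0)
Euclidean complex of finite dimension with finitely many shapes, and let `f : Γ → Q` be a
homomorphism to a group in the class. Let `N` be the kernel of `f`. Suppose that the intersections
of the stabilizers of the vertices with the preimages of the cyclic subgroups of `Q` are in the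
class, that in each chain of a given length of finite sets of simplices which contain two far
simplices two consecutive sets have the same intersection of `N` with the pointwise stabilizer or
the same label, that for each such intersection `F` and each element `t` of `Γ` which normalizes `F`
the group generated by `F` and `t` is in the class, and that the intersections of the stabilizers of
the labels with the preimages of the cyclic subgroups of `Q` are in the class. Then `Γ` is in the
class. -/
theorem mem_of_complex_relL {P : ∀ (G : Type) [Group G], Prop} (hP : IsFJClassT P)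
    [CompleteSpace X] [Nonempty X] (hX : IsCAT0 X) (hfin : K.lens.Finite) {d : ℕ}
    (hd : ∀ s ∈ K.faces, s.card ≤ d + 1) (hact : IsSimplicial Γ K) {Q : Type} [Group Q]
    (f : Γ →* Q) (hQ : P Q) (k l : ℕ)
    (hv : ∀ (v : V) (q : Q),
      P (MulAction.stabilizer Γ v ⊓ (Subgroup.zpowers q).comap f : Subgroup Γ))
    {Lb : Type} [MulAction Γ Lb] {lab : Set (Set V) → Lb → Prop} (hlab : IsLab Γ lab)
    (hchain : ∀ T : ℕ → Set (Set V), (∀ i, (T i).Finite) → (∀ i, ∀ C ∈ T i, K.IsFace C) →
      (∀ i, T i ⊆ T (i + 1)) →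
      (∃ C ∈ T 0, ∃ C' ∈ T 0, ∀ u ∈ C, ∀ v ∈ C', (k : ℝ) ≤ dist (K.pos u) (K.pos v)) →
      ∃ i < l, fixingSubgroup Γ (T i) ⊓ f.ker = fixingSubgroup Γ (T (i + 1)) ⊓ f.ker ∨
        ∃ a, lab (T i) a ∧ lab (T (i + 1)) a)
    (hnorm : ∀ T : Set (Set V), T.Finite → (∀ C ∈ T, K.IsFace C) →
      (∃ C ∈ T, ∃ C' ∈ T, ∀ u ∈ C, ∀ v ∈ C', (k : ℝ) ≤ dist (K.pos u) (K.pos v)) → ∀ t : Γ,
      (∀ j, j ∈ fixingSubgroup Γ T ⊓ f.ker ↔ t * j * t⁻¹ ∈ fixingSubgroup Γ T ⊓ f.ker) →
      P ((fixingSubgroup Γ T ⊓ f.ker) ⊔ Subgroup.zpowers t : Subgroup Γ))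
    (hL : ∀ T : Set (Set V), T.Finite → (∀ C ∈ T, K.IsFace C) →
      (∃ C ∈ T, ∃ C' ∈ T, ∀ u ∈ C, ∀ v ∈ C', (k : ℝ) ≤ dist (K.pos u) (K.pos v)) → ∀ a,
      lab T a → ∀ q : Q,
      P (MulAction.stabilizer Γ a ⊓ (Subgroup.zpowers q).comap f : Subgroup Γ)) : P Γ := by
  have hP' := hP.toIsFJClass
  have hactK : ∀ K' : Subgroup Γ, IsSimplicial K' K := fun K' =>
    ⟨fun g x y => hact.isom (g : Γ) x y, fun g x v => hact.co_smul (g : Γ) x v⟩
  -- the stabilizers in a subgroup
  have hstab : ∀ (K' : Subgroup Γ) (q : Q), K' ≤ (Subgroup.zpowers q).comap f → ∀ x : V,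
      P (MulAction.stabilizer K' x) := by
    intro K' q hK x
    refine hP.of_injective ((K'.subtype.comp (MulAction.stabilizer K' x).subtype).codRestrict
      (MulAction.stabilizer Γ x ⊓ (Subgroup.zpowers q).comap f) fun g => ?_) ?_ (hv x q)
    · exact ⟨g.2, hK g.1.2⟩
    · intro a b hab
      have h1 := congrArg (fun y : (MulAction.stabilizer Γ x ⊓
        (Subgroup.zpowers q).comap f : Subgroup Γ) => (y : Γ)) hab
      exact Subtype.ext (Subtype.ext h1)
  have hstabL : ∀ (K' : Subgroup Γ) (q : Q), K' ≤ (Subgroup.zpowers q).comap f → ∀ a : Lb,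
      P (MulAction.stabilizer Γ a ⊓ (Subgroup.zpowers q).comap f : Subgroup Γ) →
      P (MulAction.stabilizer K' a) := by
    intro K' q hK a ha
    refine hP.of_injective ((K'.subtype.comp (MulAction.stabilizer K' a).subtype).codRestrict
      (MulAction.stabilizer Γ a ⊓ (Subgroup.zpowers q).comap f) fun g => ?_) ?_ ha
    · exact ⟨g.2, hK g.1.2⟩
    · intro b c hbc
      have h1 := congrArg (fun y : (MulAction.stabilizer Γ a ⊓
        (Subgroup.zpowers q).comap f : Subgroup Γ) => (y : Γ)) hbc
      exact Subtype.ext (Subtype.ext h1)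
  have hfixK : ∀ (K' : Subgroup Γ) (T : Set (Set V)) (g : K'),
      g ∈ fixingSubgroup K' T ↔ (g : Γ) ∈ fixingSubgroup Γ T := by
    intro K' T g
    rw [mem_fixingSubgroup_iff, mem_fixingSubgroup_iff]
    exact Iff.rfl
  -- the kernel
  have hN : P f.ker := by
    have hFN : ∀ (T : Set (Set V)) (g : f.ker),
        g ∈ fixingSubgroup f.ker T ↔ (g : Γ) ∈ fixingSubgroup Γ T ⊓ f.ker := by
      intro T g
      rw [hfixK, Subgroup.mem_inf]
      exact ⟨fun h => ⟨h, g.2⟩, fun h => h.1⟩
    have hle : f.ker ≤ (Subgroup.zpowers (1 : Q)).comap f := by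
      intro g hg
      rw [Subgroup.mem_comap, MonoidHom.mem_ker.1 hg]
      exact one_mem _
    refine mem_of_complexL hP hX hfin hd (hactK f.ker) k l (hstab f.ker 1 hle)
      (isLab_sub hlab f.ker) (fun T hfin hT hmono hfar => ?_)
      (fun T hfin hT hfar t ht => ?_)
      (fun T hfin hT hfar a ha => hstabL f.ker 1 hle a (hL T hfin hT hfar a ha 1))
    · obtain ⟨i, hi, h⟩ := hchain T hfin hT hmono hfar
      refine ⟨i, hi, h.imp_left fun h => ?_⟩
      ext g
      rw [hFN, hFN, h]
    · exact CCC.mem_sup_of_sub hP' (hFN T) t (hnorm T hfin hT hfar t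
        (CCC.normal_iff_of_sub inf_le_right (hFN T) ht))
  refine hP.extension f hQ fun q => ?_
  obtain ⟨K', hK⟩ : ∃ K' : Subgroup Γ, K' = (Subgroup.zpowers q).comap f := ⟨_, rfl⟩
  rw [← hK]
  have hKm : ∀ g : K', ∃ n : ℤ, q ^ n = f (g : Γ) := by
    intro g
    have h1 : (g : Γ) ∈ (Subgroup.zpowers q).comap f := hK ▸ g.2
    exact Subgroup.mem_zpowers_iff.1 (Subgroup.mem_comap.1 h1)
  have hker : f.ker ≤ K' := by
    intro g hg
    rw [hK, Subgroup.mem_comap, MonoidHom.mem_ker.1 hg]
    exact one_mem _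
  by_cases hq : IsOfFinOrder q
  · -- elements of finite order
    have : Finite (Subgroup.zpowers q) := hq.finite_zpowers
    obtain ⟨F, hF⟩ : ∃ F : K' →* Subgroup.zpowers q, ∀ g : K',
        ((F g : Subgroup.zpowers q) : Q) = f g :=
      ⟨(f.comp K'.subtype).codRestrict (Subgroup.zpowers q) fun g => by
        obtain ⟨n, hn⟩ := hKm g
        exact Subgroup.mem_zpowers_iff.2 ⟨n, hn⟩, fun g => rfl⟩
    refine hP'.of_finite_range F ?_
    refine hP.of_injective ((K'.subtype.comp F.ker.subtype).codRestrict f.ker fun g => ?_) ?_ hN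
    · have h2 : F g = 1 := g.2
      have h3 := hF (g : K')
      rw [h2] at h3
      exact h3.symm
    · intro a b hab
      have h1 := congrArg (fun x : f.ker => (x : Γ)) hab
      exact Subtype.ext (Subtype.ext h1)
  · -- elements of infinite order: product with the line
    obtain ⟨ψ, hψ⟩ : ∃ ψ : Multiplicative ℤ →* Q, ∀ n, ψ n = q ^ n.toAdd :=
      ⟨zpowersHom Q q, fun n => rfl⟩
    have hinj : Function.Injective ψ := by
      rw [injective_iff_map_eq_one]
      intro n hn
      rw [hψ] at hn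
      have h1 : n.toAdd = 0 := by
        by_contra h2
        exact hq (isOfFinOrder_iff_zpow_eq_one.2 ⟨n.toAdd, h2, hn⟩)
      exact Multiplicative.toAdd.injective h1
    obtain ⟨χ, hχ⟩ : ∃ χ : K' →* Multiplicative ℤ, ∀ g : K', f (g : Γ) = ψ (χ g) := by
      let e : Multiplicative ℤ ≃* ψ.range := MonoidHom.ofInjective hinj
      let φ : K' →* ψ.range := (f.comp K'.subtype).codRestrict ψ.range fun g => by
        obtain ⟨n, hn⟩ := hKm g
        exact ⟨Multiplicative.ofAdd n, by rw [hψ]; exact hn⟩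
      refine ⟨e.symm.toMonoidHom.comp φ, fun g => ?_⟩
      have h1 : e (e.symm (φ g)) = φ g := e.apply_symm_apply _
      have h2 : ((e (e.symm (φ g)) : ψ.range) : Q) = f (g : Γ) := by
        rw [h1]
        rfl
      rw [← h2]
      rfl
    obtain ⟨o⟩ := ‹Nonempty X›
    obtain ⟨L, -, -, hL', -⟩ := EComplex.exists_lip hX hfin hd
    obtain ⟨Δ, hΔ⟩ := exists_discQ_line (Γ := K') hX K hfin hd (hactK K').co_smul
    have hFK : ∀ (T : Set (faceAct (hactK K'))) (g : K'), g ∈ fixingSubgroup K' T ⊓ χ.ker ↔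
        (g : Γ) ∈ fixingSubgroup Γ (Subtype.val '' T : Set (Set V)) ⊓ f.ker := by
      intro T g
      rw [Subgroup.mem_inf, Subgroup.mem_inf, MonoidHom.mem_ker, MonoidHom.mem_ker, hχ]
      refine and_congr ?_ ?_
      · rw [← hfixK, fix_face]
      · constructor
        · intro h
          rw [h, map_one]
        · intro h
          exact hinj (by rw [h, map_one])
    refine mem_of_lineL (geo := geo) hP (bicomb_geo hX) (hactK K').isom
      (fun g x y t h0 h1 => geo_map hX ((hactK K').isom g) x y h0 h1)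
      (EComplex.smallCovers hX hfin hd) (fun g u v => (hactK K').dF_smul g u.1 v.1)
      (toFaceG (hactK K') hL' Δ) hΔ χ o k l (fun v => ?_)
      (isLab_face (isLab_sub hlab K') (hactK K'))
      (fun T hfin hmono h => ?_) (fun T hfin h t ht => ?_) (fun T hfin h a ha => ?_)
    · rw [stab_face_eq]
      exact stab_face hP' (hstab K' q hK.le) (isFace_of_mem (hactK K') {v} v.1 ⟨v, rfl, rfl⟩)
    · obtain ⟨i, hi, h1⟩ := hchain (fun i => Subtype.val '' T i) (fun i => (hfin i).image _)
        (fun i => isFace_of_mem (hactK K') (T i)) (fun i => Set.image_mono (hmono i))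
        (far_face (hactK K') h)
      refine ⟨i, hi, h1.imp_left fun h1 => ?_⟩
      ext g
      rw [hFK, hFK, h1]
    · exact CCC.mem_sup_of_sub hP' (hFK T) t (hnorm _ (hfin.image _)
        (isFace_of_mem (hactK K') T) (far_face (hactK K') h) t
        (CCC.normal_iff_of_sub (inf_le_right.trans hker) (hFK T) ht))
    · exact hstabL K' q hK.le a (hL _ (hfin.image _) (isFace_of_mem (hactK K') T)
        (far_face (hactK K') h) a ha q)

end Pool.Agent.TD
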